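import Pool.Agent.E8helper55.DB.Stm

set_option autoImplicit false

namespace Pool.Agent.E8helper55.DB

open Finset Module
open Pool.Agent.Results.MP_db4732_co.PolynomialCertificates

variable {n : ℕ}

noncomputable def e (a : ZMod 2) : ℝ := if a = 0 then 1 else -1

lemma zmod2_cases (a : ZMod 2) : a = 0 ∨ a = 1 := by
  revert a; decide

lemma e_zero : e 0 = 1 := by simp [e]

lemma e_one : e 1 = -1 := by simp [e]

lemma e_add (a b : ZMod 2) : e (a + b) = e a * e b := by
  rcases zmod2_cases a with rfl | rfl <;> rcases zmod2_cases b with rfl | rfl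
  · simp [e_zero]
  · simp [e_zero, e_one]
  · simp [e_zero, e_one]
  · have : (1 : ZMod 2) + 1 = 0 := by decide
    rw [this, e_zero, e_one]; norm_num

lemma e_sq (a : ZMod 2) : e a * e a = 1 := by
  rcases zmod2_cases a with rfl | rfl
  · simp [e_zero]
  · simp [e_one]

lemma e_abs (a : ZMod 2) : |e a| = 1 := by
  rcases zmod2_cases a with rfl | rfl
  · simp [e_zero]
  · simp [e_one]

lemma e_ne {a b : ZMod 2} (h : a ≠ b) : e a * e b = -1 := by
  rcases zmod2_cases a with rfl | rfl <;> rcases zmod2_cases b with rfl | rfl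
  · exact absurd rfl h
  · simp [e_zero, e_one]
  · simp [e_zero, e_one]
  · exact absurd rfl h

lemma S_eq (F : Finset (V n)) (l : V n) : S F l = ∑ x ∈ F, e (l ⬝ᵥ x) := rfl

lemma vadd_self (x : V n) : x + x = 0 := by
  funext i
  have : ∀ a : ZMod 2, a + a = 0 := by decide
  exact this (x i)

lemma sum_e (z : V n) : ∑ l : V n, e (l ⬝ᵥ z) = if z = 0 then (2 : ℝ) ^ n else 0 := by
  classical
  split_ifs with h
  · subst h
    simp [e_zero]
  · obtain ⟨i, hi⟩ := Function.ne_iff.1 h
    have hi1 : z i = 1 := by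
      rcases zmod2_cases (z i) with h0 | h0
      · exact absurd h0 hi
      · exact h0
    have h1 : ∑ l : V n, e (l ⬝ᵥ z) = ∑ l : V n, e ((l + Pi.single i 1) ⬝ᵥ z) :=
      (Equiv.sum_comp (Equiv.addRight (Pi.single i (1 : ZMod 2) : V n))
        (fun l : V n => e (l ⬝ᵥ z))).symm
    have h2 : ∀ l : V n, e ((l + Pi.single i 1) ⬝ᵥ z) = - e (l ⬝ᵥ z) := by
      intro l
      rw [add_dotProduct, e_add, single_dotProduct, one_mul, hi1, e_one]
      ring
    simp only [h2, sum_neg_distrib] at h1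
    linarith

lemma S_abs_le (F : Finset (V n)) (l : V n) : |S F l| ≤ F.card := by
  rw [S_eq]
  refine (abs_sum_le_sum_abs _ _).trans ?_
  simp [e_abs]

lemma S_zero (F : Finset (V n)) : S F 0 = F.card := by
  rw [S_eq]; simp [e_zero]

/-- `∑_λ S(λ) S(λ + g) = 2^n S(g)` -/
lemma conv (F : Finset (V n)) (g : V n) : ∑ l : V n, S F l * S F (l + g) = 2 ^ n * S F g := by
  classical
  have h1 : ∀ l : V n, S F l * S F (l + g) =
      ∑ x ∈ F, ∑ y ∈ F, e (l ⬝ᵥ (x + y)) * e (g ⬝ᵥ y) := by
    intro l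
    rw [S_eq, S_eq, sum_mul_sum]
    refine sum_congr rfl (fun x _ => sum_congr rfl (fun y _ => ?_))
    rw [dotProduct_add, add_dotProduct, e_add, e_add, mul_assoc]
  simp only [h1]
  rw [sum_comm]
  have h2 : ∀ x ∈ F, ∑ l : V n, ∑ y ∈ F, e (l ⬝ᵥ (x + y)) * e (g ⬝ᵥ y) =
      2 ^ n * e (g ⬝ᵥ x) := by
    intro x hx
    rw [sum_comm]
    have h3 : ∀ y ∈ F, ∑ l : V n, e (l ⬝ᵥ (x + y)) * e (g ⬝ᵥ y) =
        if y = x then 2 ^ n * e (g ⬝ᵥ x) else 0 := by
      intro y _
      rw [← sum_mul, sum_e]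
      by_cases h : y = x
      · subst h
        rw [if_pos (vadd_self y), if_pos rfl]
      · rw [if_neg, if_neg h, zero_mul]
        intro h4
        apply h
        have h5 : x + (x + y) = x + 0 := by rw [h4]
        rwa [← add_assoc, vadd_self, zero_add, add_zero] at h5
    rw [sum_congr rfl h3, sum_ite_eq' F x, if_pos hx]
  rw [sum_congr rfl h2, S_eq, mul_sum]

lemma parseval (F : Finset (V n)) : ∑ l : V n, S F l ^ 2 = 2 ^ n * F.card := by
  have h := conv F 0
  rw [S_zero] at h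
  rw [← h]
  exact sum_congr rfl (fun l _ => by rw [add_zero, sq])

lemma S_half (F : Finset (V n)) (g : V n) (b : ZMod 2) (l : V n) :
    S (half F g b) l = (S F l + e b * S F (l + g)) / 2 := by
  rw [S_eq, S_eq, S_eq, half, sum_filter, mul_sum, ← sum_add_distrib, sum_div]
  refine sum_congr rfl (fun x _ => ?_)
  rw [add_dotProduct, e_add]
  split_ifs with h
  · rw [h]
    have := e_sq b
    linear_combination (-(1/2 : ℝ) * e (l ⬝ᵥ x)) * this
  · have := e_ne (Ne.symm h)
    linear_combination (-(1/2 : ℝ) * e (l ⬝ᵥ x)) * this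

lemma N_nonneg (F : Finset (V n)) : 0 ≤ N F := sum_nonneg (fun _ _ => abs_nonneg _)

lemma N_shift (F : Finset (V n)) (g : V n) : ∑ l : V n, |S F (l + g)| = N F :=
  Equiv.sum_comp (Equiv.addRight g) (fun l : V n => |S F l|)

lemma N_half_le (F : Finset (V n)) (g : V n) (b : ZMod 2) : N (half F g b) ≤ N F := by
  have h1 : ∀ l : V n, |S (half F g b) l| ≤ (|S F l| + |S F (l + g)|) / 2 := by
    intro l
    rw [S_half, abs_div, abs_two]
    refine div_le_div_of_nonneg_right ?_ (by norm_num)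
    refine (abs_add_le _ _).trans ?_
    rw [abs_mul, e_abs, one_mul]
  unfold N
  refine (sum_le_sum (fun l _ => h1 l)).trans ?_
  rw [← sum_div, sum_add_distrib, N_shift]
  have : ∑ l : V n, |S F l| = N F := rfl
  rw [this]
  linarith

lemma abs_id (u v : ℝ) : |(u + v) / 2| + |(u - v) / 2| = |u| + |v| - min |u| |v| := by
  rcases min_cases |u| |v| with ⟨h, h'⟩ | ⟨h, h'⟩ <;> rw [h] <;>
  rcases abs_cases u with ⟨h1, h1'⟩ | ⟨h1, h1'⟩ <;>
  rcases abs_cases v with ⟨h2, h2'⟩ | ⟨h2, h2'⟩ <;>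
  rcases abs_cases ((u + v) / 2) with ⟨h3, h3'⟩ | ⟨h3, h3'⟩ <;>
  rcases abs_cases ((u - v) / 2) with ⟨h4, h4'⟩ | ⟨h4, h4'⟩ <;> linarith

/-- the two halves together -/
lemma N_halves (F : Finset (V n)) (g : V n) :
    F.card * (N (half F g 0) + N (half F g 1)) ≤ 2 * F.card * N F - 2 ^ n * |S F g| := by
  have h1 : N (half F g 0) + N (half F g 1) =
      2 * N F - ∑ l : V n, min |S F l| |S F (l + g)| := by
    have h2 : ∀ l : V n, |S (half F g 0) l| + |S (half F g 1) l| =
        |S F l| + |S F (l + g)| - min |S F l| |S F (l + g)| := by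
      intro l
      rw [S_half, S_half, e_zero, e_one, one_mul, neg_one_mul, ← sub_eq_add_neg]
      exact abs_id _ _
    unfold N
    rw [← sum_add_distrib, sum_congr rfl (fun l _ => h2 l), sum_sub_distrib, sum_add_distrib,
      N_shift]
    have : ∑ l : V n, |S F l| = N F := rfl
    rw [this]
    ring
  have h3 : 2 ^ n * |S F g| ≤ F.card * ∑ l : V n, min |S F l| |S F (l + g)| := by
    have h4 : (2 : ℝ) ^ n * |S F g| = |∑ l : V n, S F l * S F (l + g)| := by
      rw [conv, abs_mul, abs_of_nonneg (by positivity : (0 : ℝ) ≤ 2 ^ n)]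
    rw [h4, mul_sum]
    refine (abs_sum_le_sum_abs _ _).trans (sum_le_sum (fun l _ => ?_))
    rw [abs_mul, ← max_mul_min]
    refine mul_le_mul_of_nonneg_right ?_ (le_min (abs_nonneg _) (abs_nonneg _))
    exact max_le (S_abs_le _ _) (S_abs_le _ _)
  rw [h1]
  linarith

/-! ### flats -/

lemma S_flat (C : Finset (V n)) (hC : Flat C) (g : V n) (h : S C g ≠ 0) :
    ∃ c : ZMod 2, ∀ x ∈ C, g ⬝ᵥ x = c := by
  classical
  obtain ⟨x0, hx0⟩ := hC.1
  refine ⟨g ⬝ᵥ x0, fun x hx => ?_⟩
  by_contra hne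
  apply h
  have h1 : S C g = ∑ z ∈ C, e (g ⬝ᵥ (z + (x + x0))) := by
    rw [S_eq]
    symm
    refine sum_bij (fun z _ => z + (x + x0)) (fun z hz => ?_) (fun z _ z' _ hzz => ?_)
      (fun z hz => ⟨z + (x + x0), ?_, ?_⟩) (fun z _ => rfl)
    · rw [← add_assoc]; exact hC.2 z hz x hx x0 hx0
    · exact add_right_cancel hzz
    · rw [← add_assoc]; exact hC.2 z hz x hx x0 hx0
    · rw [add_assoc, vadd_self, add_zero]
  have h2 : ∀ z : V n, e (g ⬝ᵥ (z + (x + x0))) = - e (g ⬝ᵥ z) := by
    intro z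
    rw [dotProduct_add, dotProduct_add, e_add, e_add, e_ne hne]
    ring
  simp only [h2, sum_neg_distrib] at h1
  have h3 : S C g = ∑ z ∈ C, e (g ⬝ᵥ z) := rfl
  linarith

lemma S_const (C : Finset (V n)) (g : V n) (c : ZMod 2) (h : ∀ x ∈ C, g ⬝ᵥ x = c) :
    S C g = e c * C.card := by
  rw [S_eq, sum_congr rfl (fun x hx => by rw [h x hx]), sum_const, nsmul_eq_mul, mul_comm]

lemma half_card (C : Finset (V n)) (g : V n) (h : S C g = 0) (b : ZMod 2) :
    2 * (half C g b).card = C.card := by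
  have h1 := S_half C g b 0
  have h2 : S (half C g b) 0 = (half C g b).card := S_zero _
  rw [h2, S_zero, zero_add, h, mul_zero, add_zero] at h1
  have h3 : (2 : ℝ) * (half C g b).card = C.card := by linarith
  exact_mod_cast h3

lemma half_flat (C : Finset (V n)) (hC : Flat C) (g : V n) (h : S C g = 0) (b : ZMod 2) :
    Flat (half C g b) := by
  refine ⟨?_, ?_⟩
  · have h1 := half_card C g h b
    have h2 : 0 < C.card := card_pos.2 hC.1
    exact card_pos.1 (by omega)
  · intro x hx y hy z hz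
    rw [half, mem_filter] at hx hy hz ⊢
    refine ⟨hC.2 x hx.1 y hy.1 z hz.1, ?_⟩
    rw [dotProduct_add, dotProduct_add, hx.2, hy.2, hz.2]
    have : ∀ b : ZMod 2, b + b + b = b := by decide
    exact this b

lemma half_inter (C B : Finset (V n)) (g : V n) (b : ZMod 2) :
    half C g b ∩ B = half (C ∩ B) g b := by
  ext x; simp only [half, mem_inter, mem_filter]; tauto

lemma half_sdiff (C B : Finset (V n)) (g : V n) (b : ZMod 2) :
    half C g b \ B = half (C \ B) g b := by
  ext x; simp only [half, mem_sdiff, mem_filter]; tauto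

lemma Psi_half_le (C B : Finset (V n)) (g : V n) (b : ZMod 2) :
    Psi (half C g b) B ≤ Psi C B := by
  unfold Psi
  rw [half_inter, half_sdiff]
  exact div_le_div_of_nonneg_right (add_le_add (N_half_le _ _ _) (N_half_le _ _ _))
    (by positivity)

lemma S_add (C B : Finset (V n)) (l : V n) : S C l = S (C ∩ B) l + S (C \ B) l := by
  rw [S_eq, S_eq, S_eq, add_comm, ← sum_union]
  · rw [sdiff_union_inter]
  · exact disjoint_sdiff_inter C B

lemma card_add (C B : Finset (V n)) : (C.card : ℝ) = (C ∩ B).card + (C \ B).card := by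
  have := card_inter_add_card_sdiff C B
  exact_mod_cast this.symm

/-- There is a character, not constant on `C`, with a large coefficient on `C ∩ B`. -/
lemma choice (C B : Finset (V n)) (hC : Flat C) (h1 : (C ∩ B).Nonempty) (h2 : (C \ B).Nonempty) :
    ∃ g : V n, S C g = 0 ∧
      2 * 2 ^ n * ((C ∩ B).card * (C \ B).card : ℝ) ≤
        C.card * (|S (C ∩ B) g| * (N (C ∩ B) + N (C \ B))) := by
  classical
  set G := C ∩ B with hG
  set H := C \ B with hH
  have hGp : (0 : ℝ) < G.card := by exact_mod_cast card_pos.2 h1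
  have hHp : (0 : ℝ) < H.card := by exact_mod_cast card_pos.2 h2
  have hCc : (C.card : ℝ) = G.card + H.card := card_add C B
  have hCp : (0 : ℝ) < C.card := by rw [hCc]; positivity
  set U : Finset (V n) := univ.filter (fun g => S C g = 0) with hU
  set W : Finset (V n) := univ.filter (fun g => ¬ S C g = 0) with hW
  have split : ∀ f : V n → ℝ, ∑ g, f g = ∑ g ∈ U, f g + ∑ g ∈ W, f g := fun f =>
    (sum_filter_add_sum_filter_not univ (fun g => S C g = 0) f).symm
  have hsub : ∀ F : Finset (V n), F ⊆ C → ∀ g ∈ W, |S F g| = F.card := by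
    intro F hF g hg
    obtain ⟨c, hc⟩ := S_flat C hC g (mem_filter.1 hg).2
    rw [S_const F g c (fun x hx => hc x (hF hx)), abs_mul, e_abs, one_mul,
      abs_of_nonneg (Nat.cast_nonneg _)]
  have hsq : ∀ F : Finset (V n), F ⊆ C → ∑ g ∈ W, S F g ^ 2 = W.card * (F.card : ℝ) ^ 2 := by
    intro F hF
    rw [sum_congr rfl (fun g hg => by rw [← sq_abs, hsub F hF g hg]), sum_const, nsmul_eq_mul]
  have hGC : G ⊆ C := inter_subset_left
  have hHC : H ⊆ C := sdiff_subset
  -- the number of the characters which are constant on `C`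
  have hK : (W.card : ℝ) * C.card = 2 ^ n := by
    have h3 := parseval C
    rw [split, hsq C (Subset.refl _), sum_eq_zero (s := U) (fun g hg => by
      rw [(mem_filter.1 hg).2]; norm_num), zero_add] at h3
    have h4 : (W.card * C.card : ℝ) * C.card = 2 ^ n * C.card := by rw [← h3]; ring
    exact mul_right_cancel₀ hCp.ne' h4
  have h3 : ∑ g ∈ U, S G g ^ 2 = W.card * G.card * H.card := by
    have h4 := parseval G
    rw [split, hsq G hGC] at h4
    rw [← hK, hCc] at h4
    linear_combination h4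
  have h5 : ∀ g ∈ U, |S H g| = |S G g| := by
    intro g hg
    have h6 := S_add C B g
    rw [(mem_filter.1 hg).2] at h6
    have : S H g = - S G g := by linarith
    rw [this, abs_neg]
  have h7 : 2 * ∑ g ∈ U, |S G g| = N G + N H - 2 ^ n := by
    have h8 : N G = ∑ g ∈ U, |S G g| + W.card * G.card := by
      unfold N
      rw [split, sum_congr rfl (fun g hg => hsub G hGC g hg), sum_const, nsmul_eq_mul]
    have h9 : N H = ∑ g ∈ U, |S G g| + W.card * H.card := by
      unfold N
      rw [split, sum_congr rfl (fun g hg => hsub H hHC g hg), sum_const, nsmul_eq_mul,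
        sum_congr rfl h5]
    rw [h8, h9, ← hK, hCc]
    ring
  by_contra hcon
  push Not at hcon
  have hKp : (0 : ℝ) < W.card := by
    by_contra h
    have h0 : (W.card : ℝ) = 0 := le_antisymm (not_lt.1 h) (Nat.cast_nonneg _)
    rw [h0, zero_mul] at hK
    have : (0 : ℝ) < 2 ^ n := by positivity
    linarith
  have hX : ∀ g ∈ U, S G g ^ 2 * (N G + N H) * C.card ≤
      2 * 2 ^ n * (G.card * H.card) * |S G g| := by
    intro g hg
    have h10 := (hcon g (mem_filter.1 hg).2).le
    have h11 := mul_le_mul_of_nonneg_right h10 (abs_nonneg (S G g))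
    have h12 : S G g ^ 2 = |S G g| * |S G g| := by rw [← sq_abs]; ring
    rw [h12]
    calc _ = C.card * (|S G g| * (N G + N H)) * |S G g| := by ring
      _ ≤ _ := h11
  have hY := sum_le_sum hX
  rw [← sum_mul, ← sum_mul, ← mul_sum, h3] at hY
  have h13 : (2 : ℝ) * 2 ^ n * (G.card * H.card) * ∑ g ∈ U, |S G g| =
      2 ^ n * (G.card * H.card) * (N G + N H - 2 ^ n) := by
    rw [← h7]; ring
  rw [h13] at hY
  have h14 : (W.card : ℝ) * G.card * H.card * (N G + N H) * C.card =
      2 ^ n * (G.card * H.card) * (N G + N H) := by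
    rw [← hK]; ring
  rw [h14] at hY
  have h15 : (0 : ℝ) < 2 ^ n * (G.card * H.card) := by positivity
  have h16 : (0 : ℝ) < 2 ^ n * (G.card * H.card) * 2 ^ n := by positivity
  nlinarith

theorem core_holds (n : ℕ) : CORE n := by
  classical
  intro C B hC h1 h2
  obtain ⟨g, hg, hcho⟩ := choice C B hC h1 h2
  refine ⟨g, fun b => ⟨half_flat C hC g hg b, half_card C g hg b, fun B' => Psi_half_le C B' g b⟩,
    ?_⟩
  have a1 := N_halves (C ∩ B) g
  have a2 := N_halves (C \ B) g
  have hGp : (0 : ℝ) < (C ∩ B).card := by exact_mod_cast card_pos.2 h1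
  have hHp : (0 : ℝ) < (C \ B).card := by exact_mod_cast card_pos.2 h2
  have hCc := card_add C B
  have hS : |S (C \ B) g| = |S (C ∩ B) g| := by
    have h6 := S_add C B g
    rw [hg] at h6
    have : S (C \ B) g = - S (C ∩ B) g := by linarith
    rw [this, abs_neg]
  rw [hS] at a2
  have b1 := N_half_le (C ∩ B) g 0
  have b2 := N_half_le (C ∩ B) g 1
  have b3 := N_half_le (C \ B) g 0
  have b4 := N_half_le (C \ B) g 1
  have c1 := N_nonneg (half (C ∩ B) g 0)
  have c2 := N_nonneg (half (C ∩ B) g 1)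
  have c3 := N_nonneg (half (C \ B) g 0)
  have c4 := N_nonneg (half (C \ B) g 1)
  unfold Psi
  simp only [half_inter, half_sdiff]
  set P := N (C ∩ B) with hP
  set Q := N (C \ B) with hQ
  set P0 := N (half (C ∩ B) g 0) with hP0
  set P1 := N (half (C ∩ B) g 1) with hP1
  set Q0 := N (half (C \ B) g 0) with hQ0
  set Q1 := N (half (C \ B) g 1) with hQ1
  set a : ℝ := ((C ∩ B).card : ℝ) with ha
  set c : ℝ := ((C \ B).card : ℝ) with hc
  set σ := |S (C ∩ B) g| with hσ
  have hσ0 : 0 ≤ σ := abs_nonneg _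
  rw [hCc] at hcho
  have hN : (0 : ℝ) < 2 ^ n := by positivity
  generalize hNN : (2 : ℝ) ^ n = M at *
  -- `T R ≤ 2 R² - 2 M²`
  have key : (P0 + Q0 + (P1 + Q1)) * (P + Q) ≤ 2 * (P + Q) ^ 2 - 2 * M ^ 2 := by
    have hac : 0 < a * c := mul_pos hGp hHp
    have d1 : a * c * (P0 + Q0 + (P1 + Q1)) ≤ 2 * (a * c) * (P + Q) - M * σ * (a + c) := by
      have e1 := mul_le_mul_of_nonneg_left a1 hHp.le
      have e2 := mul_le_mul_of_nonneg_left a2 hGp.le
      nlinarith
    have hPQ : 0 ≤ P + Q := by linarith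
    have d2 := mul_le_mul_of_nonneg_right d1 hPQ
    have d3 := mul_le_mul_of_nonneg_left hcho hN.le
    have d4 : a * c * ((P0 + Q0 + (P1 + Q1)) * (P + Q)) ≤
        a * c * (2 * (P + Q) ^ 2 - 2 * M ^ 2) := by nlinarith
    exact le_of_mul_le_mul_left d4 hac
  have key2 : (P0 + Q0) ^ 2 + (P1 + Q1) ^ 2 ≤ 2 * (P + Q) ^ 2 - 2 * M ^ 2 := by
    refine le_trans ?_ key
    have f1 : (P0 + Q0) * (P0 + Q0) ≤ (P0 + Q0) * (P + Q) :=
      mul_le_mul_of_nonneg_left (by linarith) (by linarith)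
    have f2 : (P1 + Q1) * (P1 + Q1) ≤ (P1 + Q1) * (P + Q) :=
      mul_le_mul_of_nonneg_left (by linarith) (by linarith)
    nlinarith
  have fin : ∀ X Y : ℝ, X ^ 2 ≤ Y ^ 2 - M ^ 2 → (X / M) ^ 2 ≤ (Y / M) ^ 2 - 1 := by
    intro X Y h
    rw [div_pow, div_pow, ← sub_nonneg]
    have : Y ^ 2 / M ^ 2 - 1 - X ^ 2 / M ^ 2 = (Y ^ 2 - M ^ 2 - X ^ 2) / M ^ 2 := by
      field_simp
    rw [this]
    apply div_nonneg _ (by positivity)
    linarith
  by_cases hcase : (P0 + Q0) ^ 2 ≤ (P + Q) ^ 2 - M ^ 2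
  · exact ⟨0, fin _ _ hcase⟩
  · exact ⟨1, fin _ _ (by linarith)⟩

end Pool.Agent.E8helper55.DB
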