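import Pool.Agent.E8helper55.DB.Core
import Pool.Agent.E8helper51.DB.Psi
import Pool.Agent.E8helper52.DB.Tail

set_option autoImplicit false

namespace Pool.Agent.E8helper55.DB

open Finset Module
open Pool.Agent.Results.MP_db4732_co.PolynomialCertificates

variable {n : ℕ}

/-- the splitting step, for both halves -/
theorem core2 (C B : Finset (V n)) (hC : Flat C) (h1 : (C ∩ B).Nonempty) (h2 : (C \ B).Nonempty) :
    ∃ g : V n, (∀ b : ZMod 2, Flat (half C g b) ∧ 2 * (half C g b).card = C.card ∧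
      ∀ B' : Finset (V n), Psi (half C g b) B' ≤ Psi C B') ∧
    Psi (half C g 0) B ^ 2 + Psi (half C g 1) B ^ 2 ≤ 2 * Psi C B ^ 2 - 2 := by
  classical
  obtain ⟨g, hg, hcho⟩ := choice C B hC h1 h2
  refine ⟨g, fun b => ⟨half_flat C hC g hg b, half_card C g hg b, fun B' => Psi_half_le C B' g b⟩,
    ?_⟩
  have a1 := N_halves (C ∩ B) g
  have a2 := N_halves (C \ B) g
  have hGp : (0 : ℝ) < (C ∩ B).card := by exact_mod_cast card_pos.2 h1
  have hHp : (0 : ℝ) < (C \ B).card := by exact_mod_cast card_pos.2 h2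
  have hCc := card_add C B
  have hS : |S (C \ B) g| = |S (C ∩ B) g| := by
    have h6 := S_add C B g
    rw [hg] at h6
    have : S (C \ B) g = - S (C ∩ B) g := by linarith
    rw [this, abs_neg]
  rw [hS] at a2
  have b1 := N_half_le (C ∩ B) g 0
  have b2 := N_half_le (C ∩ B) g 1
  have b3 := N_half_le (C \ B) g 0
  have b4 := N_half_le (C \ B) g 1
  have c1 := N_nonneg (half (C ∩ B) g 0)
  have c2 := N_nonneg (half (C ∩ B) g 1)
  have c3 := N_nonneg (half (C \ B) g 0)
  have c4 := N_nonneg (half (C \ B) g 1)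
  unfold Psi
  simp only [half_inter, half_sdiff]
  set P := N (C ∩ B) with hP
  set Q := N (C \ B) with hQ
  set P0 := N (half (C ∩ B) g 0) with hP0
  set P1 := N (half (C ∩ B) g 1) with hP1
  set Q0 := N (half (C \ B) g 0) with hQ0
  set Q1 := N (half (C \ B) g 1) with hQ1
  set a : ℝ := ((C ∩ B).card : ℝ) with ha
  set c : ℝ := ((C \ B).card : ℝ) with hc
  set σ := |S (C ∩ B) g| with hσ
  have hσ0 : 0 ≤ σ := abs_nonneg _
  rw [hCc] at hcho
  have hN : (0 : ℝ) < 2 ^ n := by positivity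
  generalize hNN : (2 : ℝ) ^ n = M at *
  have key : (P0 + Q0 + (P1 + Q1)) * (P + Q) ≤ 2 * (P + Q) ^ 2 - 2 * M ^ 2 := by
    have hac : 0 < a * c := mul_pos hGp hHp
    have d1 : a * c * (P0 + Q0 + (P1 + Q1)) ≤ 2 * (a * c) * (P + Q) - M * σ * (a + c) := by
      have e1 := mul_le_mul_of_nonneg_left a1 hHp.le
      have e2 := mul_le_mul_of_nonneg_left a2 hGp.le
      nlinarith
    have hPQ : 0 ≤ P + Q := by linarith
    have d2 := mul_le_mul_of_nonneg_right d1 hPQ
    have d3 := mul_le_mul_of_nonneg_left hcho hN.le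
    have d4 : a * c * ((P0 + Q0 + (P1 + Q1)) * (P + Q)) ≤
        a * c * (2 * (P + Q) ^ 2 - 2 * M ^ 2) := by nlinarith
    exact le_of_mul_le_mul_left d4 hac
  have key2 : (P0 + Q0) ^ 2 + (P1 + Q1) ^ 2 ≤ 2 * (P + Q) ^ 2 - 2 * M ^ 2 := by
    refine le_trans ?_ key
    have f1 : (P0 + Q0) * (P0 + Q0) ≤ (P0 + Q0) * (P + Q) :=
      mul_le_mul_of_nonneg_left (by linarith) (by linarith)
    have f2 : (P1 + Q1) * (P1 + Q1) ≤ (P1 + Q1) * (P + Q) :=
      mul_le_mul_of_nonneg_left (by linarith) (by linarith)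
    nlinarith
  have e1 : ((P0 + Q0) / M) ^ 2 + ((P1 + Q1) / M) ^ 2 = ((P0 + Q0) ^ 2 + (P1 + Q1) ^ 2) / M ^ 2 := by
    rw [div_pow, div_pow, add_div]
  have e2 : 2 * ((P + Q) / M) ^ 2 - 2 = (2 * (P + Q) ^ 2 - 2 * M ^ 2) / M ^ 2 := by
    rw [div_pow]
    field_simp
  rw [e1, e2]
  exact div_le_div_of_nonneg_right key2 (by positivity)

lemma two_exp (la d0 d1 : ℝ) (h : 0 ≤ la) (h0 : 0 ≤ d0) (h1 : 0 ≤ d1) (h2 : 2 ≤ d0 + d1) :
    Real.exp (-(la * d0)) + Real.exp (-(la * d1)) ≤ 1 + Real.exp (-(2 * la)) := by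
  have u1 : Real.exp (-(la * d0)) ≤ 1 := Real.exp_le_one_iff.2 (by nlinarith)
  have v1 : Real.exp (-(la * d1)) ≤ 1 := Real.exp_le_one_iff.2 (by nlinarith)
  have uv : Real.exp (-(la * d0)) * Real.exp (-(la * d1)) ≤ Real.exp (-(2 * la)) := by
    rw [← Real.exp_add]
    exact Real.exp_le_exp.2 (by nlinarith)
  nlinarith

open Classical in
theorem tail2 (L : Finset (Finset (V n))) (la : ℝ) (hla : 0 ≤ la) (k : ℕ) :
    ∀ C : Finset (V n), Flat C →
      ((C.filter (fun x => ¬ Good L C k x)).card : ℝ) ≤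
        C.card * (Real.exp (la * (∑ B ∈ L, (Psi C B ^ 2 - 1) - 3)) *
          ((1 + Real.exp (-(2 * la))) / 2) ^ k) := by
  have h1 : PSI n := Pool.Agent.E8helper51.DB.psi_holds n
  have hconst : ∀ (C : Finset (V n)) (k : ℕ), Flat C →
      (∀ B ∈ L, (C ∩ B) = ∅ ∨ (C \ B) = ∅) →
      ((C.filter (fun x => ¬ Good L C k x)).card : ℝ) ≤
        C.card * (Real.exp (la * (∑ B ∈ L, (Psi C B ^ 2 - 1) - 3)) *
          ((1 + Real.exp (-(2 * la))) / 2) ^ k) := by
    intro C k hC hcase
    have hempty : (C.filter (fun x => ¬ Good L C k x)) = ∅ := by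
      rw [filter_eq_empty_iff]
      intro x hx hng
      refine hng ⟨C, Subset.refl _, hC, hx, Nat.le_mul_of_pos_left _ (by positivity),
        fun B hB => ?_⟩
      rcases hcase B hB with h | h
      · right; exact disjoint_iff_inter_eq_empty.2 h
      · left; exact sdiff_eq_empty_iff_subset.1 h
    rw [hempty, card_empty, Nat.cast_zero]
    positivity
  have hpos : ∀ (C B : Finset (V n)), Flat C → 0 ≤ Psi C B ^ 2 - 1 := by
    intro C B hC
    have := (h1 C B hC).1
    nlinarith
  have hX3 : ∀ (C B : Finset (V n)), Flat C → B ∈ L → (C ∩ B).Nonempty → (C \ B).Nonempty →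
      3 ≤ ∑ B ∈ L, (Psi C B ^ 2 - 1) := by
    intro C B hC hB hn1 hn2
    have h3 := (h1 C B hC).2.1 hn1 hn2
    have h4 : Psi C B ^ 2 - 1 ≤ ∑ B ∈ L, (Psi C B ^ 2 - 1) :=
      single_le_sum (f := fun B => Psi C B ^ 2 - 1) (fun B _ => hpos C B hC) hB
    nlinarith
  induction k with
  | zero =>
    intro C hC
    by_cases hcase : ∀ B ∈ L, (C ∩ B) = ∅ ∨ (C \ B) = ∅
    · exact hconst C 0 hC hcase
    · push Not at hcase
      obtain ⟨B₀, hB₀, hn1, hn2⟩ := hcase
      have h5 := hX3 C B₀ hC hB₀ hn1 hn2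
      have h6 : (1 : ℝ) ≤ Real.exp (la * (∑ B ∈ L, (Psi C B ^ 2 - 1) - 3)) :=
        Real.one_le_exp (mul_nonneg hla (by linarith))
      have h7 : ((C.filter (fun x => ¬ Good L C 0 x)).card : ℝ) ≤ C.card := by
        exact_mod_cast card_filter_le _ _
      rw [pow_zero, mul_one]
      calc ((C.filter (fun x => ¬ Good L C 0 x)).card : ℝ) ≤ C.card * 1 := by rw [mul_one]; exact h7
        _ ≤ _ := mul_le_mul_of_nonneg_left h6 (Nat.cast_nonneg _)
  | succ k ih =>
    intro C hC
    by_cases hcase : ∀ B ∈ L, (C ∩ B) = ∅ ∨ (C \ B) = ∅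
    · exact hconst C (k + 1) hC hcase
    · push Not at hcase
      obtain ⟨B₀, hB₀, hn1, hn2⟩ := hcase
      obtain ⟨g, hg, hb⟩ := core2 C B₀ hC hn1 hn2
      have hterm : ∀ b : ZMod 2, ∀ B, Psi (half C g b) B ^ 2 ≤ Psi C B ^ 2 := by
        intro b B
        have e1 := (h1 (half C g b) B (hg b).1).1
        exact pow_le_pow_left₀ (by linarith) ((hg b).2.2 B) 2
      set X : ℝ := ∑ B ∈ L, (Psi C B ^ 2 - 1) with hX
      set X0 : ℝ := ∑ B ∈ L, (Psi (half C g 0) B ^ 2 - 1) with hX0
      set X1 : ℝ := ∑ B ∈ L, (Psi (half C g 1) B ^ 2 - 1) with hX1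
      have hle0 : X0 ≤ X := sum_le_sum fun B _ => by linarith [hterm 0 B]
      have hle1 : X1 ≤ X := sum_le_sum fun B _ => by linarith [hterm 1 B]
      have hsum : 2 ≤ (X - X0) + (X - X1) := by
        have e1 : Psi C B₀ ^ 2 - Psi (half C g 0) B₀ ^ 2 + (Psi C B₀ ^ 2 - Psi (half C g 1) B₀ ^ 2) ≤
            ∑ B ∈ L, (Psi C B ^ 2 - Psi (half C g 0) B ^ 2 +
              (Psi C B ^ 2 - Psi (half C g 1) B ^ 2)) :=
          single_le_sum (f := fun B => Psi C B ^ 2 - Psi (half C g 0) B ^ 2 +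
              (Psi C B ^ 2 - Psi (half C g 1) B ^ 2)) (fun B _ => by
            have := hterm 0 B
            have := hterm 1 B
            linarith) hB₀
        have e2 : (X - X0) + (X - X1) = ∑ B ∈ L, (Psi C B ^ 2 - Psi (half C g 0) B ^ 2 +
              (Psi C B ^ 2 - Psi (half C g 1) B ^ 2)) := by
          rw [hX, hX0, hX1, ← sum_sub_distrib, ← sum_sub_distrib, ← sum_add_distrib]
          exact sum_congr rfl (fun B _ => by ring)
        rw [e2]
        linarith
      have hsub : ∀ b : ZMod 2, half C g b ⊆ C := fun b => filter_subset _ _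
      have hi0 := ih (half C g 0) (hg 0).1
      have hi1 := ih (half C g 1) (hg 1).1
      have hcov : (C.filter (fun x => ¬ Good L C (k + 1) x)) ⊆
          ((half C g 0).filter (fun x => ¬ Good L (half C g 0) k x)) ∪
          ((half C g 1).filter (fun x => ¬ Good L (half C g 1) k x)) := by
        intro x hx
        rw [mem_filter] at hx
        obtain ⟨hxC, hng⟩ := hx
        rw [mem_union, mem_filter, mem_filter]
        rcases zmod2_cases (g ⬝ᵥ x) with h | h
        · left
          exact ⟨mem_filter.2 ⟨hxC, h⟩, fun hG => hng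
            (Pool.Agent.E8helper52.DB.good_lift (hsub _) (hg _).2.1 hG)⟩
        · right
          exact ⟨mem_filter.2 ⟨hxC, h⟩, fun hG => hng
            (Pool.Agent.E8helper52.DB.good_lift (hsub _) (hg _).2.1 hG)⟩
      have hcard : ((C.filter (fun x => ¬ Good L C (k + 1) x)).card : ℝ) ≤
          ((half C g 0).filter (fun x => ¬ Good L (half C g 0) k x)).card +
          ((half C g 1).filter (fun x => ¬ Good L (half C g 1) k x)).card := by
        exact_mod_cast (card_le_card hcov).trans (card_union_le _ _)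
      have hc0 : ((half C g 0).card : ℝ) = C.card / 2 := by
        have : (2 : ℝ) * (half C g 0).card = C.card := by exact_mod_cast (hg 0).2.1
        linarith
      have hc1 : ((half C g 1).card : ℝ) = C.card / 2 := by
        have : (2 : ℝ) * (half C g 1).card = C.card := by exact_mod_cast (hg 1).2.1
        linarith
      rw [hc0] at hi0
      rw [hc1] at hi1
      have htwo := two_exp la (X - X0) (X - X1) hla (by linarith) (by linarith) hsum
      set q : ℝ := (1 + Real.exp (-(2 * la))) / 2 with hq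
      have hq0 : 0 ≤ q := by positivity
      have f0 : Real.exp (la * (X0 - 3)) = Real.exp (la * (X - 3)) * Real.exp (-(la * (X - X0))) := by
        rw [← Real.exp_add]; congr 1; ring
      have f1 : Real.exp (la * (X1 - 3)) = Real.exp (la * (X - 3)) * Real.exp (-(la * (X - X1))) := by
        rw [← Real.exp_add]; congr 1; ring
      calc ((C.filter (fun x => ¬ Good L C (k + 1) x)).card : ℝ)
          ≤ C.card / 2 * (Real.exp (la * (X0 - 3)) * q ^ k) +
            C.card / 2 * (Real.exp (la * (X1 - 3)) * q ^ k) := by linarith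
        _ = C.card / 2 * Real.exp (la * (X - 3)) * q ^ k *
            (Real.exp (-(la * (X - X0))) + Real.exp (-(la * (X - X1)))) := by
            rw [f0, f1]; ring
        _ ≤ C.card / 2 * Real.exp (la * (X - 3)) * q ^ k * (1 + Real.exp (-(2 * la))) :=
            mul_le_mul_of_nonneg_left htwo (by positivity)
        _ = C.card * (Real.exp (la * (X - 3)) * q ^ (k + 1)) := by
            rw [pow_succ, hq]; ring

end Pool.Agent.E8helper55.DB
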