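import Pool.Agent.E8helper55.DB.Stm2
import Pool.Agent.E8helper55.DB.Tail2
import Pool.Agent.E8helper87.DB.Asm

set_option autoImplicit false

namespace Pool.Agent.E8helper55.DB

open Finset Module
open Pool.Agent.Results.MP_db4732_co.PolynomialCertificates

variable {n : ℕ}

lemma exp_bound (η X : ℝ) (k : ℕ) (h0 : 0 ≤ η) (hX : X ≤ (1 - 2 * η) * k + 3) :
    Real.exp (2 * η * (X - 3)) * ((1 + Real.exp (-(2 * (2 * η)))) / 2) ^ k ≤
      Real.exp (-(2 * η ^ 2 * k)) := by
  have h1 : (1 + Real.exp (-(2 * (2 * η)))) / 2 ≤ Real.exp (-(2 * η) + 2 * η ^ 2) := by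
    have e1 : (1 + Real.exp (-(2 * (2 * η)))) / 2 = Real.exp (-(2 * η)) * Real.cosh (2 * η) := by
      rw [Real.cosh_eq]
      have e2 : Real.exp (-(2 * η)) * Real.exp (2 * η) = 1 := by rw [← Real.exp_add]; simp
      have e3 : Real.exp (-(2 * η)) * Real.exp (-(2 * η)) = Real.exp (-(2 * (2 * η))) := by
        rw [← Real.exp_add]; congr 1; ring
      rw [← e3]
      linear_combination (-(1 / 2 : ℝ)) * e2
    rw [e1, Real.exp_add]
    refine mul_le_mul_of_nonneg_left ?_ (Real.exp_pos _).le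
    refine (Real.cosh_le_exp_half_sq (2 * η)).trans (le_of_eq ?_)
    congr 1
    ring
  have h2 : ((1 + Real.exp (-(2 * (2 * η)))) / 2) ^ k ≤
      Real.exp (k * (-(2 * η) + 2 * η ^ 2)) := by
    rw [Real.exp_nat_mul]
    exact pow_le_pow_left₀ (by positivity) h1 k
  calc Real.exp (2 * η * (X - 3)) * ((1 + Real.exp (-(2 * (2 * η)))) / 2) ^ k
      ≤ Real.exp (2 * η * (X - 3)) * Real.exp (k * (-(2 * η) + 2 * η ^ 2)) :=
        mul_le_mul_of_nonneg_left h2 (Real.exp_pos _).le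
    _ = Real.exp (2 * η * (X - 3) + k * (-(2 * η) + 2 * η ^ 2)) := (Real.exp_add _ _).symm
    _ ≤ Real.exp (-(2 * η ^ 2 * k)) := by
        refine Real.exp_le_exp.2 ?_
        have : 2 * η * (X - 3) ≤ 2 * η * ((1 - 2 * η) * k) :=
          mul_le_mul_of_nonneg_left (by linarith) (by linarith)
        nlinarith

lemma card_univ_V : (univ : Finset (V n)).card = 2 ^ n := by
  rw [card_univ, Fintype.card_fun, ZMod.card, Fintype.card_fin]

lemma flat_univ : Flat (univ : Finset (V n)) :=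
  ⟨univ_nonempty, fun _ _ _ _ _ _ => mem_univ _⟩

open Classical in
/-- the structure theorem -/
theorem structure_bound (L : Finset (Finset (V n))) (k : ℕ) (η : ℝ) (hη : 0 ≤ η)
    (h : ∑ B ∈ L, 4 * (N B / 2 ^ n) * (N B / 2 ^ n + 1) ≤ (1 - 2 * η) * k + 3) :
    ((univ.filter (fun x => ¬ Good L univ k x)).card : ℝ) ≤
      2 ^ n * Real.exp (-(2 * η ^ 2 * k)) := by
  have h1 : ∑ B ∈ L, (Psi univ B ^ 2 - 1) ≤ (1 - 2 * η) * k + 3 := by
    refine le_trans (sum_le_sum fun B _ => ?_) h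
    obtain ⟨g1, _, g2⟩ := Pool.Agent.E8helper51.DB.psi_holds n univ B flat_univ
    nlinarith
  refine (tail2 L (2 * η) (by linarith) k univ flat_univ).trans ?_
  rw [card_univ_V, Nat.cast_pow, Nat.cast_two]
  exact mul_le_mul_of_nonneg_left (exp_bound η _ k hη h1) (by positivity)

lemma cert_of_good {D k : ℕ} {M : Set (V n)} {L : Finset (Finset (V n))} {y : V n}
    (hg : Good L univ k y) (h : V n → ZMod 2) (hD : h ∈ polys (ZMod 2) n D) (hy : h y ≠ 0)
    (hM : ∀ y', h y' ≠ 0 → (∀ B ∈ L, y ∈ B ↔ y' ∈ B) → y' ∈ M) :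
    Certified (ZMod 2) (k + D) M y := by
  have h1 := Pool.Agent.E8helper87.DB.key (L := L) (M := {y' | ∀ B ∈ L, y ∈ B ↔ y' ∈ B})
    (k := k) (x := y) (fun u u' hu => ⟨fun h2 B hB => (h2 B hB).trans (hu B hB),
      fun h2 B hB => (h2 B hB).trans (hu B hB).symm⟩) (fun B _ => Iff.rfl) hg
  obtain ⟨g, hgD, hgy, hgM⟩ := on_flat _ _ _ h1
  refine ⟨fun y' => g y' * h y', ?_, mul_ne_zero hgy hy, fun y' hy' => ?_⟩
  · have h2 : (fun y' => g y' * h y') ∈ Pool.Agent.R288.PC.Deg (ZMod 2) n (n - (n - k) + D) :=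
      Pool.Agent.R288.PC.mul_mem hgD hD
    exact Pool.Agent.R288.PC.deg_mono (by omega) h2
  · exact hM y' (right_ne_zero_of_mul hy') (hgM y' (left_ne_zero_of_mul hy'))

open Classical in
lemma struct_count {D k : ℕ} {s η : ℝ} {M : Set (V n)} (hη : 0 ≤ η)
    (hs : s ≤ (1 - 2 * η) * k + 3) (hM : Struct D s M) :
    ((univ.filter (fun y => y ∈ M ∧ ¬ Certified (ZMod 2) (k + D) M y)).card : ℝ) ≤
      2 ^ n * Real.exp (-(2 * η ^ 2 * k)) := by
  obtain ⟨L, hL, h⟩ := hM
  refine le_trans ?_ (structure_bound L k η hη (hL.trans hs))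
  refine Nat.cast_le.2 (card_le_card fun y hy => ?_)
  rw [mem_filter] at hy ⊢
  refine ⟨mem_univ _, fun hg => hy.2.2 ?_⟩
  obtain ⟨f, hf, hfy, hfM⟩ := h y hy.2.1
  exact cert_of_good hg f hf hfy hfM

/-- the set `M` is, up to at most `e` points, a union of `T` sets with a simple structure -/
def Near (T D : ℕ) (s e : ℝ) (M : Set (V n)) : Prop :=
  ∃ F : Fin T → Set (V n), (∀ i, Struct D s (F i)) ∧ ((symmDiff M (⋃ i, F i)).ncard : ℝ) ≤ e

open Classical in
lemma near_count (hC : CLOS) {T D k d : ℕ} {s η e : ℝ} {M : Set (V n)} (hη : 0 ≤ η)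
    (hs : s ≤ (1 - 2 * η) * k + 3)
    (hM : Near T D s (e * (∑ i ∈ range (d + 1), n.choose i : ℕ)) M) (hd : d ≤ n) :
    ((univ.filter (fun y => y ∈ M ∧ ¬ Certified (ZMod 2) (k + D + d) M y)).card : ℝ) ≤
      2 ^ n * (T * Real.exp (-(2 * η ^ 2 * k)) + e) := by
  obtain ⟨F, hF, he⟩ := hM
  set vl : ℕ := ∑ i ∈ range (d + 1), n.choose i with hvl
  have hvl1 : 1 ≤ vl := by
    rw [hvl, sum_range_succ']
    simp
  have hvl2 : vl ≤ 2 ^ n := by
    rw [← Nat.sum_range_choose n]
    apply sum_le_sum_of_subset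
    apply range_subset_range.2
    omega
  set U : Set (V n) := ⋃ i, F i with hU
  set E : Finset (V n) := univ.filter (fun y => y ∈ U ∧ y ∉ M) with hE
  set R : Finset (V n) := univ.filter (fun y => y ∈ M ∧ y ∉ U) with hR
  have hER : ((E.card : ℝ) + R.card) ≤ e * vl := by
    refine le_trans ?_ he
    have h1 : (symmDiff M U) = ((E ∪ R : Finset (V n)) : Set (V n)) := by
      ext y
      rw [Set.mem_symmDiff, mem_coe, mem_union, hE, hR, mem_filter, mem_filter]
      simp only [mem_univ, true_and]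
      tauto
    have h2 : Disjoint E R := by
      rw [Finset.disjoint_left]
      intro y hy hy'
      exact (mem_filter.1 hy).2.2 (mem_filter.1 hy').2.1
    rw [h1, Set.ncard_coe_finset, card_union_of_disjoint h2]
    push_cast
    exact le_refl _
  -- the closure of `E`
  set Y : Finset (V n) := univ.filter (fun y => ∀ h ∈ polys (ZMod 2) n d,
    (∀ x ∈ E, h x = 0) → h y = 0) with hY
  have hYc : (Y.card : ℝ) * vl ≤ 2 ^ n * E.card := by
    have := hC n d E Y (fun y hy => (mem_filter.1 hy).2)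
    exact_mod_cast this
  have hcov : (univ.filter (fun y => y ∈ M ∧ ¬ Certified (ZMod 2) (k + D + d) M y)) ⊆
      (R ∪ Y) ∪ univ.biUnion (fun i : Fin T =>
        univ.filter (fun y => y ∈ F i ∧ ¬ Certified (ZMod 2) (k + D) (F i) y)) := by
    intro y hy
    rw [mem_filter] at hy
    obtain ⟨-, hyM, hyC⟩ := hy
    rw [mem_union, mem_union, mem_biUnion]
    by_cases hyU : y ∈ U
    · by_cases hyY : y ∈ Y
      · exact Or.inl (Or.inr hyY)
      · right
        obtain ⟨i, hi⟩ := Set.mem_iUnion.1 hyU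
        refine ⟨i, mem_univ _, mem_filter.2 ⟨mem_univ _, hi, fun hcert => hyC ?_⟩⟩
        obtain ⟨f, hf, hfy, hfM⟩ := hcert
        rw [hY, mem_filter] at hyY
        push Not at hyY
        obtain ⟨g, hg, hgE, hgy⟩ := hyY (mem_univ _)
        refine ⟨fun y' => f y' * g y', Pool.Agent.R288.PC.mul_mem hf hg, mul_ne_zero hfy hgy,
          fun y' hy' => ?_⟩
        by_contra hcon
        have h3 : y' ∈ U := Set.mem_iUnion.2 ⟨i, hfM y' (left_ne_zero_of_mul hy')⟩
        exact (right_ne_zero_of_mul hy') (hgE y' (mem_filter.2 ⟨mem_univ _, h3, hcon⟩))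
    · exact Or.inl (Or.inl (mem_filter.2 ⟨mem_univ _, hyM, hyU⟩))
  have hcard : ((univ.filter (fun y => y ∈ M ∧ ¬ Certified (ZMod 2) (k + D + d) M y)).card : ℝ) ≤
      (R.card + Y.card) + ∑ i : Fin T, ((univ.filter (fun y => y ∈ F i ∧
        ¬ Certified (ZMod 2) (k + D) (F i) y)).card : ℝ) := by
    have h1 := (card_le_card hcov).trans (card_union_le _ _)
    have h2 := card_union_le R Y
    have h3 := card_biUnion_le (s := (univ : Finset (Fin T))) (t := fun i : Fin T =>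
        univ.filter (fun y => y ∈ F i ∧ ¬ Certified (ZMod 2) (k + D) (F i) y))
    have h4 := h1.trans (Nat.add_le_add h2 h3)
    exact_mod_cast h4
  have hsum : ∑ i : Fin T, ((univ.filter (fun y => y ∈ F i ∧
        ¬ Certified (ZMod 2) (k + D) (F i) y)).card : ℝ) ≤
      T * (2 ^ n * Real.exp (-(2 * η ^ 2 * k))) := by
    refine (sum_le_sum fun i _ => struct_count hη hs (hF i)).trans (le_of_eq ?_)
    rw [sum_const, card_univ, Fintype.card_fin, nsmul_eq_mul]
  have hRY : (R.card : ℝ) + Y.card ≤ 2 ^ n * e := by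
    have hv : (0 : ℝ) < vl := by exact_mod_cast hvl1
    have hv2 : (vl : ℝ) ≤ 2 ^ n := by exact_mod_cast hvl2
    have h5 : ((R.card : ℝ) + Y.card) * vl ≤ (2 ^ n * e) * vl := by
      have h6 : (R.card : ℝ) * vl ≤ R.card * 2 ^ n :=
        mul_le_mul_of_nonneg_left hv2 (Nat.cast_nonneg _)
      have h7 := mul_le_mul_of_nonneg_left hER (by positivity : (0 : ℝ) ≤ 2 ^ n)
      nlinarith
    exact le_of_mul_le_mul_right h5 hv
  nlinarith

/-- the bound for corner-free sets -/
theorem lines_bound (hC : CLOS) (A : Finset (V n × V n)) (hA : CornerFree A) (dir : Direction)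
    (T k D d : ℕ) (s δ η e : ℝ) (hδ : 0 ≤ δ) (hη : 0 ≤ η)
    (hdeg : ((k + D + d : ℕ) : ℝ) ≤ (1 / 2 - δ) * n) (hs : s ≤ (1 - 2 * η) * k + 3)
    (hM : ∀ t, Near T D s (e * (∑ i ∈ range (d + 1), n.choose i : ℕ)) (line A dir t)) :
    (A.card : ℝ) ≤ 4 ^ n * (Real.exp (-(2 * δ ^ 2 * n)) + T * Real.exp (-(2 * η ^ 2 * k)) + e) := by
  classical
  have hdn : d ≤ n := by
    have h0 : (0 : ℝ) ≤ n := Nat.cast_nonneg n
    have h1 : ((k + D + d : ℕ) : ℝ) ≤ n := by nlinarith
    have h2 : k + D + d ≤ n := by exact_mod_cast h1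
    omega
  set P : V n × V n → Prop := fun a =>
    Certified (ZMod 2) (k + D + d) (line A dir (number dir a)) (place dir a) with hP
  have h1 := bound (K := ZMod 2) (D := k + D + d) hA dir (A.filter P)
    (fun a ha => ⟨(mem_filter.1 ha).1, (mem_filter.1 ha).2⟩)
  have h2 : ((A.filter (fun a => ¬ P a)).card : ℝ) ≤
      2 ^ n * (2 ^ n * (T * Real.exp (-(2 * η ^ 2 * k)) + e)) := by
    rw [card_eq_sum_card_fiberwise (f := number dir) (t := univ) (fun _ _ => mem_univ _),
      Nat.cast_sum]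
    refine (sum_le_sum (g := fun _ => 2 ^ n * (T * Real.exp (-(2 * η ^ 2 * k)) + e))
      (fun t _ => ?_)).trans (le_of_eq ?_)
    · refine le_trans ?_ (near_count hC hη hs (hM t) hdn)
      rw [← card_image_of_injOn (f := place dir)]
      · refine Nat.cast_le.2 (card_le_card fun y hy => ?_)
        obtain ⟨a, ha, rfl⟩ := mem_image.1 hy
        rw [mem_filter, mem_filter] at ha
        obtain ⟨⟨h3, h4⟩, rfl⟩ := ha
        exact mem_filter.2 ⟨mem_univ _, place_mem dir a h3, h4⟩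
      · intro a ha b hb hab
        rw [mem_coe, mem_filter] at ha hb
        exact place_inj dir a b (ha.2.trans hb.2.symm) hab
    · rw [sum_const, card_univ_V, nsmul_eq_mul, Nat.cast_pow, Nat.cast_two]
  have h3 : ((A.filter P).card : ℝ) ≤ 2 ^ n * (2 ^ n * Real.exp (-(2 * δ ^ 2 * n))) := by
    have h4 := Pool.Agent.R288.PC.tail n (k + D + d) δ hδ hdeg
    have h5 : ((A.filter P).card : ℝ) ≤ 2 ^ n * (Pool.Agent.R288.PC.vol n (k + D + d) : ℝ) := by
      exact_mod_cast h1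
    exact h5.trans (mul_le_mul_of_nonneg_left h4 (by positivity))
  have h6 : (A.card : ℝ) = (A.filter P).card + (A.filter (fun a => ¬ P a)).card := by
    have := card_filter_add_card_filter_not (s := A) P
    exact_mod_cast this.symm
  have h7 : (4 : ℝ) ^ n = 2 ^ n * 2 ^ n := by rw [← mul_pow]; norm_num
  rw [h6, h7]
  nlinarith

end Pool.Agent.E8helper55.DB
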