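import Pool.Agent.E8helper55.DB.Stm2

/-!
Statements for the numerical part of the version with symmetric differences.
-/

set_option autoImplicit false

namespace Pool.Agent.E8helper55.DB

open Finset

/-- the number of the monomials of degree at most `40 q` in at least `100 q` variables -/
def VOL36 : Prop := ∀ n q : ℕ, 100 * q ≤ n →
  (2 : ℝ) ^ (100 * q) ≤ 36 ^ q * ((∑ i ∈ range (40 * q + 1), n.choose i : ℕ) : ℝ)

/-- the numerical part -/
def NUM3 : Prop := ∃ C : ℝ, 0 < C ∧ ∀ (n : ℕ) (W : ℝ), 0 ≤ W →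
  Real.exp (-(2 * (1 / 200) ^ 2 * n)) +
    (W * (2 ^ n * Real.exp (-(2 * (47 / 100) ^ 2 * ((9 * (n / 100) : ℕ) : ℝ)))) +
      2 ^ ((47 : ℝ) / 50 * n)) / ((∑ i ∈ range (40 * (n / 100) + 1), n.choose i : ℕ) : ℝ) ≤
  C * (Real.exp (-((n : ℝ) / 20000)) + W * 2 ^ (-((n : ℝ) / 200)))

end Pool.Agent.E8helper55.DB
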