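import Pool.Agent.E8helper55.DB.Tail3
import Pool.Agent.E8helper55.DB.Stm3
import Pool.Agent.E8helper38.DB.Res
import Pool.Agent.E8helper13.DB.Clos

set_option autoImplicit false

namespace Pool.Agent.E8helper55.DB

open Finset Module
open Pool.Agent.Results.MP_db4732_co.PolynomialCertificates

variable {n : ℕ}

open Classical in
lemma near_count2 {T R D k d : ℕ} {s η e : ℝ} {M : Set (V n)} (hη : 0 ≤ η)
    (hs : s ≤ (1 - 2 * η) * k + 3) (hM : NearSym T R D s e M) (hd : d ≤ n) :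
    ((univ.filter (fun y => y ∈ M ∧ ¬ Certified (ZMod 2) (k + D + d) M y)).card : ℝ) ≤
      2 ^ n * ((T * R * (2 ^ n * Real.exp (-(2 * η ^ 2 * k))) + e) /
        ((∑ i ∈ range (d + 1), n.choose i : ℕ) : ℝ)) := by
  obtain ⟨F, hF, he⟩ := hM
  set vl : ℕ := ∑ i ∈ range (d + 1), n.choose i with hvl
  have hvl1 : 1 ≤ vl := by
    rw [hvl, sum_range_succ']
    simp
  have hvl2 : vl ≤ 2 ^ n := by
    rw [← Nat.sum_range_choose n]
    apply sum_le_sum_of_subset
    apply range_subset_range.2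
    omega
  choose f hf hc using fun i => sym_approx hη hs (hF i)
  set U : Set (V n) := ⋃ i, F i with hU
  set E1 : Finset (V n) := univ.biUnion (fun i : Fin T =>
    univ.filter (fun y => ¬ (f i y ≠ 0 ↔ y ∈ F i))) with hE1
  set E2 : Finset (V n) := univ.filter (fun y => y ∈ U ∧ y ∉ M) with hE2
  set R0 : Finset (V n) := univ.filter (fun y => y ∈ M ∧ y ∉ U) with hR0
  have hER : ((E2.card : ℝ) + R0.card) ≤ e := by
    refine le_trans ?_ he
    have h1 : (symmDiff M U) = ((E2 ∪ R0 : Finset (V n)) : Set (V n)) := by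
      ext y
      rw [Set.mem_symmDiff, mem_coe, mem_union, hE2, hR0, mem_filter, mem_filter]
      simp only [mem_univ, true_and]
      tauto
    have h2 : Disjoint E2 R0 := by
      rw [Finset.disjoint_left]
      intro y hy hy'
      exact (mem_filter.1 hy).2.2 (mem_filter.1 hy').2.1
    rw [h1, Set.ncard_coe_finset, card_union_of_disjoint h2]
    push_cast
    exact le_refl _
  have hE1c : (E1.card : ℝ) ≤ T * R * (2 ^ n * Real.exp (-(2 * η ^ 2 * k))) := by
    have h1 : E1.card ≤ ∑ i : Fin T, (univ.filter (fun y => ¬ (f i y ≠ 0 ↔ y ∈ F i))).card :=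
      card_biUnion_le
    calc (E1.card : ℝ) ≤ ∑ i : Fin T, ((univ.filter (fun y => ¬ (f i y ≠ 0 ↔ y ∈ F i))).card : ℝ) := by
          exact_mod_cast h1
      _ ≤ ∑ _i : Fin T, R * (2 ^ n * Real.exp (-(2 * η ^ 2 * k))) :=
          sum_le_sum (fun i _ => hc i)
      _ = _ := by rw [sum_const, card_univ, Fintype.card_fin, nsmul_eq_mul]; ring
  set Y : Finset (V n) := univ.filter (fun y => ∀ h ∈ polys (ZMod 2) n d,
    (∀ x ∈ E1 ∪ E2, h x = 0) → h y = 0) with hY
  have hYc : (Y.card : ℝ) * vl ≤ 2 ^ n * (E1.card + E2.card) := by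
    have h1 := Pool.Agent.E8helper13.DB.clos_holds n d (E1 ∪ E2) Y
      (fun y hy => (mem_filter.1 hy).2)
    have h2 : Y.card * vl ≤ 2 ^ n * (E1.card + E2.card) :=
      h1.trans (Nat.mul_le_mul_left _ (card_union_le _ _))
    exact_mod_cast h2
  have hcov : (univ.filter (fun y => y ∈ M ∧ ¬ Certified (ZMod 2) (k + D + d) M y)) ⊆ R0 ∪ Y := by
    intro y hy
    rw [mem_filter] at hy
    obtain ⟨-, hyM, hyC⟩ := hy
    rw [mem_union]
    by_cases hyU : y ∈ U
    · right
      by_contra hyY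
      rw [hY, mem_filter] at hyY
      push Not at hyY
      obtain ⟨g, hg, hgE, hgy⟩ := hyY (mem_univ _)
      have hyE : ∀ y', g y' ≠ 0 → y' ∉ E1 ∧ y' ∉ E2 := fun y' h =>
        ⟨fun h2 => h (hgE y' (mem_union_left _ h2)), fun h2 => h (hgE y' (mem_union_right _ h2))⟩
      have hE1' : ∀ y', y' ∉ E1 → ∀ i, (f i y' ≠ 0 ↔ y' ∈ F i) := by
        intro y' h i
        by_contra h2
        exact h (mem_biUnion.2 ⟨i, mem_univ _, mem_filter.2 ⟨mem_univ _, h2⟩⟩)
      obtain ⟨i, hi⟩ := Set.mem_iUnion.1 hyU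
      have hfy : f i y ≠ 0 := (hE1' y (hyE y hgy).1 i).2 hi
      refine hyC ⟨fun y' => f i y' * g y', Pool.Agent.R288.PC.mul_mem (hf i) hg,
        mul_ne_zero hfy hgy, fun y' hy' => ?_⟩
      by_contra hcon
      have h3 : y' ∈ U := Set.mem_iUnion.2 ⟨i, (hE1' y' (hyE y' (right_ne_zero_of_mul hy')).1 i).1
        (left_ne_zero_of_mul hy')⟩
      exact (hyE y' (right_ne_zero_of_mul hy')).2 (mem_filter.2 ⟨mem_univ _, h3, hcon⟩)
    · exact Or.inl (mem_filter.2 ⟨mem_univ _, hyM, hyU⟩)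
  have hcard : ((univ.filter (fun y => y ∈ M ∧ ¬ Certified (ZMod 2) (k + D + d) M y)).card : ℝ) ≤
      R0.card + Y.card := by
    exact_mod_cast (card_le_card hcov).trans (card_union_le _ _)
  have hv : (0 : ℝ) < vl := by exact_mod_cast hvl1
  have hv2 : (vl : ℝ) ≤ 2 ^ n := by exact_mod_cast hvl2
  refine hcard.trans ?_
  rw [← mul_div_assoc, le_div_iff₀ hv]
  have h6 : (R0.card : ℝ) * vl ≤ R0.card * 2 ^ n :=
    mul_le_mul_of_nonneg_left hv2 (Nat.cast_nonneg _)
  have h7 : (2 : ℝ) ^ n * (E1.card + (E2.card + R0.card)) ≤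
      2 ^ n * (T * R * (2 ^ n * Real.exp (-(2 * η ^ 2 * k))) + e) :=
    mul_le_mul_of_nonneg_left (add_le_add hE1c hER) (by positivity)
  nlinarith

/-- the bound for corner-free sets -/
theorem lines_bound2 (A : Finset (V n × V n)) (hA : CornerFree A) (dir : Direction)
    (T R k D d : ℕ) (s δ η e : ℝ) (hδ : 0 ≤ δ) (hη : 0 ≤ η)
    (hdeg : ((k + D + d : ℕ) : ℝ) ≤ (1 / 2 - δ) * n) (hs : s ≤ (1 - 2 * η) * k + 3)
    (hM : ∀ t, NearSym T R D s e (line A dir t)) :
    (A.card : ℝ) ≤ 4 ^ n * (Real.exp (-(2 * δ ^ 2 * n)) +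
      (T * R * (2 ^ n * Real.exp (-(2 * η ^ 2 * k))) + e) /
        ((∑ i ∈ range (d + 1), n.choose i : ℕ) : ℝ)) := by
  classical
  have hdn : d ≤ n := by
    have h0 : (0 : ℝ) ≤ n := Nat.cast_nonneg n
    have h1 : ((k + D + d : ℕ) : ℝ) ≤ n := by nlinarith
    have h2 : k + D + d ≤ n := by exact_mod_cast h1
    omega
  set P : V n × V n → Prop := fun a =>
    Certified (ZMod 2) (k + D + d) (line A dir (number dir a)) (place dir a) with hP
  set Z : ℝ := (T * R * (2 ^ n * Real.exp (-(2 * η ^ 2 * k))) + e) /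
        ((∑ i ∈ range (d + 1), n.choose i : ℕ) : ℝ) with hZ
  have h1 := bound (K := ZMod 2) (D := k + D + d) hA dir (A.filter P)
    (fun a ha => ⟨(mem_filter.1 ha).1, (mem_filter.1 ha).2⟩)
  have h2 : ((A.filter (fun a => ¬ P a)).card : ℝ) ≤ 2 ^ n * (2 ^ n * Z) := by
    rw [card_eq_sum_card_fiberwise (f := number dir) (t := univ) (fun _ _ => mem_univ _),
      Nat.cast_sum]
    refine (sum_le_sum (g := fun _ => 2 ^ n * Z) (fun t _ => ?_)).trans (le_of_eq ?_)
    · refine le_trans ?_ (near_count2 hη hs (hM t) hdn)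
      rw [← card_image_of_injOn (f := place dir)]
      · refine Nat.cast_le.2 (card_le_card fun y hy => ?_)
        obtain ⟨a, ha, rfl⟩ := mem_image.1 hy
        rw [mem_filter, mem_filter] at ha
        obtain ⟨⟨h3, h4⟩, rfl⟩ := ha
        exact mem_filter.2 ⟨mem_univ _, place_mem dir a h3, h4⟩
      · intro a ha b hb hab
        rw [mem_coe, mem_filter] at ha hb
        exact place_inj dir a b (ha.2.trans hb.2.symm) hab
    · rw [sum_const, card_univ_V, nsmul_eq_mul, Nat.cast_pow, Nat.cast_two]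
  have h3 : ((A.filter P).card : ℝ) ≤ 2 ^ n * (2 ^ n * Real.exp (-(2 * δ ^ 2 * n))) := by
    have h4 := Pool.Agent.R288.PC.tail n (k + D + d) δ hδ hdeg
    have h5 : ((A.filter P).card : ℝ) ≤ 2 ^ n * (Pool.Agent.R288.PC.vol n (k + D + d) : ℝ) := by
      exact_mod_cast h1
    exact h5.trans (mul_le_mul_of_nonneg_left h4 (by positivity))
  have h6 : (A.card : ℝ) = (A.filter P).card + (A.filter (fun a => ¬ P a)).card := by
    have := card_filter_add_card_filter_not (s := A) P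
    exact_mod_cast this.symm
  have h7 : (4 : ℝ) ^ n = 2 ^ n * 2 ^ n := by rw [← mul_pow]; norm_num
  rw [h6, h7]
  nlinarith

/-- restriction to a row -/
lemma decided_row {D : ℕ} {s : ℝ} {M : Set (V (n + n))} (x : V n) (hM : Decided D s M) :
    Decided D s {y : V n | Fin.append x y ∈ M} := by
  classical
  obtain ⟨L, h, hL, hD, hM⟩ := hM
  refine ⟨L.image (Pool.Agent.E8helper38.DB.row x),
    fun P y => h (L.filter (fun B => Pool.Agent.E8helper38.DB.row x B ∈ P)) (Fin.append x y),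
    ?_, fun P => Pool.Agent.E8helper38.DB.polys_row D x _ (hD _), fun y => ?_⟩
  · refine le_trans ?_ hL
    refine (sum_image_le_of_nonneg (fun B _ => ?_)).trans (sum_le_sum fun B _ => ?_)
    · have := N_nonneg B
      positivity
    · have h1 := Pool.Agent.E8helper38.DB.N_row x B
      have h2 : 0 ≤ N (Pool.Agent.E8helper38.DB.row x B) / 2 ^ n :=
        div_nonneg (N_nonneg _) (by positivity)
      have h3 : 0 ≤ N B / 2 ^ (n + n) := h2.trans h1
      exact mul_le_mul (mul_le_mul_of_nonneg_left h1 (by norm_num)) (by linarith) (by linarith)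
        (by linarith)
  · rw [Set.mem_ofPred_eq, hM]
    have h1 : L.filter (fun B => Fin.append x y ∈ B) = L.filter (fun B =>
        Pool.Agent.E8helper38.DB.row x B ∈
          (L.image (Pool.Agent.E8helper38.DB.row x)).filter (fun B => y ∈ B)) := by
      ext B
      rw [mem_filter, mem_filter, mem_filter]
      refine and_congr_right fun hB => ?_
      rw [Pool.Agent.E8helper38.DB.mem_row]
      exact ⟨fun h => ⟨mem_image_of_mem _ hB, h⟩, fun h => h.2⟩
    rw [h1]

lemma symDiff_row {R D : ℕ} {s : ℝ} {M : Set (V (n + n))} (x : V n) (hM : SymDiff R D s M) :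
    SymDiff R D s {y : V n | Fin.append x y ∈ M} := by
  obtain ⟨F, hF, h⟩ := hM
  exact ⟨fun j => {y | Fin.append x y ∈ F j}, fun j => decided_row x (hF j), fun y => h _⟩

lemma near_of_whole {T R D : ℕ} {s e : ℝ} (he : 0 ≤ e) (A : Finset (V n × V n))
    (F : Fin T → Set (V (n + n))) (hF : ∀ i, SymDiff R D s (F i))
    (hA : ∀ x y, (x, y) ∈ A ↔ ∃ i, Fin.append x y ∈ F i) (t : V n) :
    NearSym T R D s e (line A .row t) := by
  refine ⟨fun i => {y | Fin.append t y ∈ F i}, fun i => symDiff_row t (hF i), ?_⟩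
  have h1 : line A .row t = ⋃ i, {y | Fin.append t y ∈ F i} := by
    ext y
    rw [Set.mem_iUnion]
    exact hA t y
  rw [h1, symmDiff_self]
  simpa using he

/-- the explicit bound -/
theorem explicit_bound (hN : NUM3) : ∃ C : ℝ, 0 < C ∧ ∀ (n T R : ℕ) (A : Finset (V n × V n)),
    CornerFree A →
      ((∃ dir, ∀ t, NearSym T R (n / 200) ((n : ℝ) / 200) (2 ^ ((47 : ℝ) / 50 * n))
        (line A dir t)) ∨
      (∃ F : Fin T → Set (V (n + n)), (∀ i, SymDiff R (n / 200) ((n : ℝ) / 200) (F i)) ∧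
        ∀ x y, (x, y) ∈ A ↔ ∃ i, Fin.append x y ∈ F i)) →
      (A.card : ℝ) ≤ C * 4 ^ n * (Real.exp (-((n : ℝ) / 20000)) +
        T * R * 2 ^ (-((n : ℝ) / 200))) := by
  obtain ⟨C, hC, h⟩ := hN
  refine ⟨C, hC, fun n T R A hA hl => ?_⟩
  have hl' : ∃ dir, ∀ t, NearSym T R (n / 200) ((n : ℝ) / 200) (2 ^ ((47 : ℝ) / 50 * n))
      (line A dir t) := by
    rcases hl with h1 | ⟨F, hF, h1⟩
    · exact h1
    · exact ⟨.row, fun t => near_of_whole (by positivity) A F hF h1 t⟩
  obtain ⟨dir, hdir⟩ := hl'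
  have hq1 : ((n / 100 : ℕ) : ℝ) ≤ (n : ℝ) / 100 := by
    have h2 : 100 * (n / 100) ≤ n := Nat.mul_div_le n 100
    have h3 : (100 : ℝ) * ((n / 100 : ℕ) : ℝ) ≤ n := by exact_mod_cast h2
    linarith
  have hq2 : (n : ℝ) / 100 - 1 ≤ ((n / 100 : ℕ) : ℝ) := by
    have h2 : n < 100 * (n / 100) + 100 := by omega
    have h3 : (n : ℝ) < 100 * ((n / 100 : ℕ) : ℝ) + 100 := by exact_mod_cast h2
    linarith
  have hq3 : ((n / 200 : ℕ) : ℝ) ≤ (n : ℝ) / 200 := by
    have h2 : 200 * (n / 200) ≤ n := Nat.mul_div_le n 200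
    have h3 : (200 : ℝ) * ((n / 200 : ℕ) : ℝ) ≤ n := by exact_mod_cast h2
    linarith
  have hn0 : (0 : ℝ) ≤ n := Nat.cast_nonneg n
  have h1 := lines_bound2 A hA dir T R (9 * (n / 100)) (n / 200) (40 * (n / 100)) ((n : ℝ) / 200)
    (1 / 200) (47 / 100) (2 ^ ((47 : ℝ) / 50 * n)) (by norm_num) (by norm_num)
    (by push_cast; linarith) (by push_cast; linarith) hdir
  have h2 := h n (T * R) (by positivity)
  calc (A.card : ℝ) ≤ _ := h1
    _ ≤ 4 ^ n * (C * (Real.exp (-((n : ℝ) / 20000)) + T * R * 2 ^ (-((n : ℝ) / 200)))) :=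
        mul_le_mul_of_nonneg_left h2 (by positivity)
    _ = _ := by ring

end Pool.Agent.E8helper55.DB
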