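import Mathlib
import Pool.Agent.Results.MP_db4732_co.PolynomialCertificates

/-!
Statements for: corner-free sets whose lines are Boolean combinations of sets with a small Fourier
algebra norm.
-/

set_option autoImplicit false

namespace Pool.Agent.E8helper55.DB

open Finset Module
open Pool.Agent.Results.MP_db4732_co.PolynomialCertificates

variable {n : ℕ}

/-- `∑_{x ∈ F} (-1)^(l · x)` -/
noncomputable def S (F : Finset (V n)) (l : V n) : ℝ :=
  ∑ x ∈ F, if l ⬝ᵥ x = 0 then (1 : ℝ) else -1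

/-- `2^n` times the Fourier algebra norm of the indicator function of `F` -/
noncomputable def N (F : Finset (V n)) : ℝ := ∑ l : V n, |S F l|

/-- `C` is a coset of a subspace. -/
def Flat (C : Finset (V n)) : Prop :=
  C.Nonempty ∧ ∀ x ∈ C, ∀ y ∈ C, ∀ z ∈ C, x + y + z ∈ C

/-- the part of `F` in which `g · x = b` -/
def half (F : Finset (V n)) (g : V n) (b : ZMod 2) : Finset (V n) :=
  F.filter (fun x => g ⬝ᵥ x = b)

/-- the measure of complexity of `B` on `C` -/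
noncomputable def Psi (C B : Finset (V n)) : ℝ := (N (C ∩ B) + N (C \ B)) / 2 ^ n

/-- `x` lies in a coset contained in `C`, of index at most `2^k` in `C`, on which all members of
`L` are constant. -/
def Good (L : Finset (Finset (V n))) (C : Finset (V n)) (k : ℕ) (x : V n) : Prop :=
  ∃ C' ⊆ C, Flat C' ∧ x ∈ C' ∧ C.card ≤ 2 ^ k * C'.card ∧ ∀ B ∈ L, C' ⊆ B ∨ Disjoint C' B

/-- the three bounds for `Psi` -/
def PSI (n : ℕ) : Prop := ∀ C B : Finset (V n), Flat C →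
  1 ≤ Psi C B ∧ ((C ∩ B).Nonempty → (C \ B).Nonempty → 2 ≤ Psi C B) ∧
    Psi univ B ≤ 2 * (N B / 2 ^ n) + 1

/-- the splitting step -/
def CORE (n : ℕ) : Prop := ∀ C B : Finset (V n), Flat C → (C ∩ B).Nonempty → (C \ B).Nonempty →
  ∃ g : V n, (∀ b : ZMod 2, Flat (half C g b) ∧ 2 * (half C g b).card = C.card ∧
      ∀ B' : Finset (V n), Psi (half C g b) B' ≤ Psi C B') ∧
    ∃ b : ZMod 2, Psi (half C g b) B ^ 2 ≤ Psi C B ^ 2 - 1

open Classical in
/-- the structure theorem -/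
def TAIL (n : ℕ) : Prop := ∀ (L : Finset (Finset (V n))) (C : Finset (V n)), Flat C → ∀ k s : ℕ,
  ∑ B ∈ L, (Psi C B ^ 2 - 1) < (s : ℝ) + 3 →
    (C.filter (fun x => ¬ Good L C k x)).card * 2 ^ k ≤ C.card * ∑ i ∈ range s, k.choose i

/-- `M` is a Boolean combination of the members of `L`, and the sum of `4 a (a + 1)`, over the
Fourier algebra norms `a` of the members of `L`, is less than `s`. -/
def Comb (s : ℝ) (M : Set (V n)) : Prop :=
  ∃ L : Finset (Finset (V n)), (∀ y y' : V n, (∀ B ∈ L, y ∈ B ↔ y' ∈ B) → (y ∈ M ↔ y' ∈ M)) ∧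
    ∑ B ∈ L, 4 * (N B / 2 ^ n) * (N B / 2 ^ n + 1) < s

/-- the bound for corner-free sets -/
def ASM (n : ℕ) : Prop := ∀ (A : Finset (V n × V n)), CornerFree A → ∀ (d : Direction) (k s : ℕ),
  (∀ t, Comb ((s : ℝ) + 3) (line A d t)) →
    A.card * 2 ^ k ≤ 2 ^ k * (2 ^ n * ∑ i ∈ range (k + 1), n.choose i) +
      4 ^ n * ∑ i ∈ range s, k.choose i

/-- the numerical part -/
def NUM : Prop := ∀ (n a : ℕ) (S δ : ℝ), 0 ≤ δ → δ ≤ 1 / 2 → S ≤ (1 / 2 - δ) ^ 2 * n →
  (∀ k s : ℕ, S < (s : ℝ) + 3 →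
    a * 2 ^ k ≤ 2 ^ k * (2 ^ n * ∑ i ∈ range (k + 1), n.choose i) +
      4 ^ n * ∑ i ∈ range s, k.choose i) →
  (a : ℝ) ≤ 3 * 4 ^ n * Real.exp (-((1 - 2 * δ) * δ ^ 2 * n))

end Pool.Agent.E8helper55.DB
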