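import Pool.Agent.E8helper55.DB.Stm

/-!
Statements for the general form: relative certificates and small errors.
-/

set_option autoImplicit false

namespace Pool.Agent.E8helper55.DB

open Finset Module
open Pool.Agent.Results.MP_db4732_co.PolynomialCertificates

/-- There are sets `B ∈ L` with Fourier algebra norms `a` and with sum of `4 a (a + 1)` at most `s`,
and every point `y` of `M` has a polynomial `h` of degree at most `D` over `F_2`, with `h(y) ≠ 0`,
such that `M` contains all points `y'` with `h(y') ≠ 0` which lie in the same members of `L` as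
`y`. -/
def Struct {n : ℕ} (D : ℕ) (s : ℝ) (M : Set (V n)) : Prop :=
  ∃ L : Finset (Finset (V n)), ∑ B ∈ L, 4 * (N B / 2 ^ n) * (N B / 2 ^ n + 1) ≤ s ∧
    ∀ y ∈ M, ∃ h ∈ polys (ZMod 2) n D, h y ≠ 0 ∧
      ∀ y', h y' ≠ 0 → (∀ B ∈ L, y ∈ B ↔ y' ∈ B) → y' ∈ M

/-- the closure of a set with respect to the polynomials of degree at most `d` is small -/
def CLOS : Prop := ∀ (n d : ℕ) (E : Finset (V n)) (Y : Finset (V n)),
  (∀ y ∈ Y, ∀ h ∈ polys (ZMod 2) n d, (∀ x ∈ E, h x = 0) → h y = 0) →
    Y.card * ∑ i ∈ range (d + 1), n.choose i ≤ 2 ^ n * E.card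

/-- restriction to a row -/
def RES : Prop := ∀ (n D : ℕ) (s : ℝ) (M : Set (V (n + n))) (x : V n), Struct D s M →
  Struct D s {y : V n | Fin.append x y ∈ M}

end Pool.Agent.E8helper55.DB
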