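import Pool.Agent.E8helper55.DB.Asm2

set_option autoImplicit false

namespace Pool.Agent.E8helper55.DB

open Finset Module
open Pool.Agent.Results.MP_db4732_co.PolynomialCertificates

variable {n : ℕ}

open Classical in
/-- There are sets `B ∈ L` with Fourier algebra norms `a` and with sum of `4 a (a + 1)` at most `s`,
and for every set `P` of members of `L` a polynomial `h P` of degree at most `D` over `F_2`, such
that a point `y` lies in `M` if and only if `h P` is nonzero at `y` for the set `P` of the members of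
`L` which contain `y`. -/
def Decided {n : ℕ} (D : ℕ) (s : ℝ) (M : Set (V n)) : Prop :=
  ∃ (L : Finset (Finset (V n))) (h : Finset (Finset (V n)) → V n → ZMod 2),
    ∑ B ∈ L, 4 * (N B / 2 ^ n) * (N B / 2 ^ n + 1) ≤ s ∧ (∀ P, h P ∈ polys (ZMod 2) n D) ∧
      ∀ y, y ∈ M ↔ h (L.filter (fun B => y ∈ B)) y ≠ 0

lemma dot_mem (g : V n) : (fun y : V n => g ⬝ᵥ y) ∈ Pool.Agent.R288.PC.Deg (ZMod 2) n 1 := by
  let f : V n →ₗ[ZMod 2] ZMod 2 :=
    { toFun := fun y => g ⬝ᵥ y
      map_add' := fun x y => dotProduct_add _ _ _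
      map_smul' := fun c x => by rw [dotProduct_smul]; rfl }
  exact Pool.Agent.R288.PC.linear_mem f

open Classical in
theorem tail3 (L : Finset (Finset (V n))) (h : Finset (Finset (V n)) → V n → ZMod 2) (D : ℕ)
    (hD : ∀ P, h P ∈ polys (ZMod 2) n D) (la : ℝ) (hla : 0 ≤ la) (k : ℕ) :
    ∀ C : Finset (V n), Flat C → ∃ f ∈ polys (ZMod 2) n (k + D),
      ((C.filter (fun x => f x ≠ h (L.filter (fun B => x ∈ B)) x)).card : ℝ) ≤
        C.card * (Real.exp (la * (∑ B ∈ L, (Psi C B ^ 2 - 1) - 3)) *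
          ((1 + Real.exp (-(2 * la))) / 2) ^ k) := by
  have h1 : PSI n := Pool.Agent.E8helper51.DB.psi_holds n
  have hconst : ∀ (C : Finset (V n)) (k : ℕ), Flat C →
      (∀ B ∈ L, (C ∩ B) = ∅ ∨ (C \ B) = ∅) → ∃ f ∈ polys (ZMod 2) n (k + D),
      ((C.filter (fun x => f x ≠ h (L.filter (fun B => x ∈ B)) x)).card : ℝ) ≤
        C.card * (Real.exp (la * (∑ B ∈ L, (Psi C B ^ 2 - 1) - 3)) *
          ((1 + Real.exp (-(2 * la))) / 2) ^ k) := by
    intro C k hC hcase
    obtain ⟨x0, hx0⟩ := hC.1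
    refine ⟨h (L.filter (fun B => x0 ∈ B)),
      Pool.Agent.R288.PC.deg_mono (by omega : D ≤ k + D) (hD _), ?_⟩
    have hempty : (C.filter (fun x => h (L.filter (fun B => x0 ∈ B)) x ≠
        h (L.filter (fun B => x ∈ B)) x)) = ∅ := by
      rw [filter_eq_empty_iff]
      intro x hx hne
      apply hne
      suffices hP : L.filter (fun B => x0 ∈ B) = L.filter (fun B => x ∈ B) by rw [hP]
      ext B
      rw [mem_filter, mem_filter]
      refine and_congr_right fun hB => ?_
      rcases hcase B hB with h2 | h2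
      · have h3 := disjoint_iff_inter_eq_empty.2 h2
        rw [Finset.disjoint_left] at h3
        exact ⟨fun h4 => absurd h4 (h3 hx0), fun h4 => absurd h4 (h3 hx)⟩
      · have h3 := sdiff_eq_empty_iff_subset.1 h2
        exact ⟨fun _ => h3 hx, fun _ => h3 hx0⟩
    rw [hempty, card_empty, Nat.cast_zero]
    positivity
  have hpos : ∀ (C B : Finset (V n)), Flat C → 0 ≤ Psi C B ^ 2 - 1 := by
    intro C B hC
    have := (h1 C B hC).1
    nlinarith
  have hX3 : ∀ (C B : Finset (V n)), Flat C → B ∈ L → (C ∩ B).Nonempty → (C \ B).Nonempty →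
      3 ≤ ∑ B ∈ L, (Psi C B ^ 2 - 1) := by
    intro C B hC hB hn1 hn2
    have h3 := (h1 C B hC).2.1 hn1 hn2
    have h4 : Psi C B ^ 2 - 1 ≤ ∑ B ∈ L, (Psi C B ^ 2 - 1) :=
      single_le_sum (f := fun B => Psi C B ^ 2 - 1) (fun B _ => hpos C B hC) hB
    nlinarith
  induction k with
  | zero =>
    intro C hC
    by_cases hcase : ∀ B ∈ L, (C ∩ B) = ∅ ∨ (C \ B) = ∅
    · exact hconst C 0 hC hcase
    · push Not at hcase
      obtain ⟨B₀, hB₀, hn1, hn2⟩ := hcase
      have h5 := hX3 C B₀ hC hB₀ hn1 hn2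
      have h6 : (1 : ℝ) ≤ Real.exp (la * (∑ B ∈ L, (Psi C B ^ 2 - 1) - 3)) :=
        Real.one_le_exp (mul_nonneg hla (by linarith))
      refine ⟨h ∅, Pool.Agent.R288.PC.deg_mono (by omega : D ≤ 0 + D) (hD _), ?_⟩
      have h7 : ((C.filter (fun x => h ∅ x ≠ h (L.filter (fun B => x ∈ B)) x)).card : ℝ) ≤
          C.card := by exact_mod_cast card_filter_le _ _
      rw [pow_zero, mul_one]
      calc ((C.filter (fun x => h ∅ x ≠ h (L.filter (fun B => x ∈ B)) x)).card : ℝ)
          ≤ C.card * 1 := by rw [mul_one]; exact h7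
        _ ≤ _ := mul_le_mul_of_nonneg_left h6 (Nat.cast_nonneg _)
  | succ k ih =>
    intro C hC
    by_cases hcase : ∀ B ∈ L, (C ∩ B) = ∅ ∨ (C \ B) = ∅
    · exact hconst C (k + 1) hC hcase
    · push Not at hcase
      obtain ⟨B₀, hB₀, hn1, hn2⟩ := hcase
      obtain ⟨g, hg, hb⟩ := core2 C B₀ hC hn1 hn2
      have hterm : ∀ b : ZMod 2, ∀ B, Psi (half C g b) B ^ 2 ≤ Psi C B ^ 2 := by
        intro b B
        have e1 := (h1 (half C g b) B (hg b).1).1
        exact pow_le_pow_left₀ (by linarith) ((hg b).2.2 B) 2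
      set X : ℝ := ∑ B ∈ L, (Psi C B ^ 2 - 1) with hX
      set X0 : ℝ := ∑ B ∈ L, (Psi (half C g 0) B ^ 2 - 1) with hX0
      set X1 : ℝ := ∑ B ∈ L, (Psi (half C g 1) B ^ 2 - 1) with hX1
      have hle0 : X0 ≤ X := sum_le_sum fun B _ => by linarith [hterm 0 B]
      have hle1 : X1 ≤ X := sum_le_sum fun B _ => by linarith [hterm 1 B]
      have hsum : 2 ≤ (X - X0) + (X - X1) := by
        have e1 : Psi C B₀ ^ 2 - Psi (half C g 0) B₀ ^ 2 + (Psi C B₀ ^ 2 - Psi (half C g 1) B₀ ^ 2) ≤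
            ∑ B ∈ L, (Psi C B ^ 2 - Psi (half C g 0) B ^ 2 +
              (Psi C B ^ 2 - Psi (half C g 1) B ^ 2)) :=
          single_le_sum (f := fun B => Psi C B ^ 2 - Psi (half C g 0) B ^ 2 +
              (Psi C B ^ 2 - Psi (half C g 1) B ^ 2)) (fun B _ => by
            have := hterm 0 B
            have := hterm 1 B
            linarith) hB₀
        have e2 : (X - X0) + (X - X1) = ∑ B ∈ L, (Psi C B ^ 2 - Psi (half C g 0) B ^ 2 +
              (Psi C B ^ 2 - Psi (half C g 1) B ^ 2)) := by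
          rw [hX, hX0, hX1, ← sum_sub_distrib, ← sum_sub_distrib, ← sum_add_distrib]
          exact sum_congr rfl (fun B _ => by ring)
        rw [e2]
        linarith
      obtain ⟨f0, hf0, hi0⟩ := ih (half C g 0) (hg 0).1
      obtain ⟨f1, hf1, hi1⟩ := ih (half C g 1) (hg 1).1
      refine ⟨fun y => (1 - g ⬝ᵥ y) * f0 y + (g ⬝ᵥ y) * f1 y, ?_, ?_⟩
      · have e1 : (fun y : V n => (g ⬝ᵥ y) * f1 y) ∈
            Pool.Agent.R288.PC.Deg (ZMod 2) n (1 + (k + D)) :=
          Pool.Agent.R288.PC.mul_mem (dot_mem g) hf1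
        have e2 : (fun y : V n => (1 - g ⬝ᵥ y) * f0 y) ∈
            Pool.Agent.R288.PC.Deg (ZMod 2) n (1 + (k + D)) :=
          Pool.Agent.R288.PC.mul_mem
            (Submodule.sub_mem _ (Pool.Agent.R288.PC.one_mem 1) (dot_mem g)) hf0
        have e3 := Submodule.add_mem _ e2 e1
        exact Pool.Agent.R288.PC.deg_mono (by omega) e3
      have hcov : (C.filter (fun x => (1 - g ⬝ᵥ x) * f0 x + (g ⬝ᵥ x) * f1 x ≠
            h (L.filter (fun B => x ∈ B)) x)) ⊆
          ((half C g 0).filter (fun x => f0 x ≠ h (L.filter (fun B => x ∈ B)) x)) ∪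
          ((half C g 1).filter (fun x => f1 x ≠ h (L.filter (fun B => x ∈ B)) x)) := by
        intro x hx
        rw [mem_filter] at hx
        obtain ⟨hxC, hng⟩ := hx
        rw [mem_union, mem_filter, mem_filter]
        rcases zmod2_cases (g ⬝ᵥ x) with h | h
        · left
          rw [h, sub_zero, one_mul, zero_mul, add_zero] at hng
          exact ⟨mem_filter.2 ⟨hxC, h⟩, hng⟩
        · right
          rw [h, sub_self, zero_mul, one_mul, zero_add] at hng
          exact ⟨mem_filter.2 ⟨hxC, h⟩, hng⟩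
      have hcard : ((C.filter (fun x => (1 - g ⬝ᵥ x) * f0 x + (g ⬝ᵥ x) * f1 x ≠
            h (L.filter (fun B => x ∈ B)) x)).card : ℝ) ≤
          ((half C g 0).filter (fun x => f0 x ≠ h (L.filter (fun B => x ∈ B)) x)).card +
          ((half C g 1).filter (fun x => f1 x ≠ h (L.filter (fun B => x ∈ B)) x)).card := by
        exact_mod_cast (card_le_card hcov).trans (card_union_le _ _)
      have hc0 : ((half C g 0).card : ℝ) = C.card / 2 := by
        have : (2 : ℝ) * (half C g 0).card = C.card := by exact_mod_cast (hg 0).2.1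
        linarith
      have hc1 : ((half C g 1).card : ℝ) = C.card / 2 := by
        have : (2 : ℝ) * (half C g 1).card = C.card := by exact_mod_cast (hg 1).2.1
        linarith
      rw [hc0] at hi0
      rw [hc1] at hi1
      have htwo := two_exp la (X - X0) (X - X1) hla (by linarith) (by linarith) hsum
      set q : ℝ := (1 + Real.exp (-(2 * la))) / 2 with hq
      have hq0 : 0 ≤ q := by positivity
      have g0 : Real.exp (la * (X0 - 3)) = Real.exp (la * (X - 3)) * Real.exp (-(la * (X - X0))) := by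
        rw [← Real.exp_add]; congr 1; ring
      have g1 : Real.exp (la * (X1 - 3)) = Real.exp (la * (X - 3)) * Real.exp (-(la * (X - X1))) := by
        rw [← Real.exp_add]; congr 1; ring
      calc ((C.filter (fun x => (1 - g ⬝ᵥ x) * f0 x + (g ⬝ᵥ x) * f1 x ≠
            h (L.filter (fun B => x ∈ B)) x)).card : ℝ)
          ≤ C.card / 2 * (Real.exp (la * (X0 - 3)) * q ^ k) +
            C.card / 2 * (Real.exp (la * (X1 - 3)) * q ^ k) := by linarith
        _ = C.card / 2 * Real.exp (la * (X - 3)) * q ^ k *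
            (Real.exp (-(la * (X - X0))) + Real.exp (-(la * (X - X1)))) := by
            rw [g0, g1]; ring
        _ ≤ C.card / 2 * Real.exp (la * (X - 3)) * q ^ k * (1 + Real.exp (-(2 * la))) :=
            mul_le_mul_of_nonneg_left htwo (by positivity)
        _ = C.card * (Real.exp (la * (X - 3)) * q ^ (k + 1)) := by
            rw [pow_succ, hq]; ring

/-- the symmetric difference of `R` sets with a simple structure -/
def SymDiff {n : ℕ} (R D : ℕ) (s : ℝ) (M : Set (V n)) : Prop :=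
  ∃ F : Fin R → Set (V n), (∀ j, Decided D s (F j)) ∧ ∀ y, y ∈ M ↔ Odd {j | y ∈ F j}.ncard

/-- the set `M` is, up to at most `e` points, a union of `T` symmetric differences of `R` sets with
a simple structure -/
def NearSym {n : ℕ} (T R D : ℕ) (s e : ℝ) (M : Set (V n)) : Prop :=
  ∃ F : Fin T → Set (V n), (∀ i, SymDiff R D s (F i)) ∧ ((symmDiff M (⋃ i, F i)).ncard : ℝ) ≤ e

open Classical in
lemma decided_approx {D k : ℕ} {s η : ℝ} {M : Set (V n)} (hη : 0 ≤ η)
    (hs : s ≤ (1 - 2 * η) * k + 3) (hM : Decided D s M) :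
    ∃ f ∈ polys (ZMod 2) n (k + D),
      ((univ.filter (fun y => ¬ (f y ≠ 0 ↔ y ∈ M))).card : ℝ) ≤
        2 ^ n * Real.exp (-(2 * η ^ 2 * k)) := by
  obtain ⟨L, h, hL, hD, hM⟩ := hM
  obtain ⟨f, hf, hc⟩ := tail3 L h D hD (2 * η) (by linarith) k univ flat_univ
  refine ⟨f, hf, ?_⟩
  have h1 : ∑ B ∈ L, (Psi univ B ^ 2 - 1) ≤ (1 - 2 * η) * k + 3 := by
    refine le_trans (sum_le_sum fun B _ => ?_) (hL.trans hs)
    obtain ⟨g1, _, g2⟩ := Pool.Agent.E8helper51.DB.psi_holds n univ B flat_univ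
    nlinarith
  have h2 : ((univ.filter (fun y => ¬ (f y ≠ 0 ↔ y ∈ M))).card : ℝ) ≤
      ((univ.filter (fun x => f x ≠ h (L.filter (fun B => x ∈ B)) x)).card : ℝ) := by
    refine Nat.cast_le.2 (card_le_card fun y hy => ?_)
    rw [mem_filter] at hy ⊢
    refine ⟨mem_univ _, fun heq => hy.2 ?_⟩
    rw [hM y, heq]
  refine h2.trans (hc.trans ?_)
  rw [card_univ_V, Nat.cast_pow, Nat.cast_two]
  exact mul_le_mul_of_nonneg_left (exp_bound η _ k hη h1) (by positivity)

open Classical in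
lemma sym_approx {R D k : ℕ} {s η : ℝ} {M : Set (V n)} (hη : 0 ≤ η)
    (hs : s ≤ (1 - 2 * η) * k + 3) (hM : SymDiff R D s M) :
    ∃ f ∈ polys (ZMod 2) n (k + D),
      ((univ.filter (fun y => ¬ (f y ≠ 0 ↔ y ∈ M))).card : ℝ) ≤
        R * (2 ^ n * Real.exp (-(2 * η ^ 2 * k))) := by
  obtain ⟨F, hF, hM⟩ := hM
  choose f hf hc using fun j => decided_approx hη hs (hF j)
  refine ⟨∑ j, f j, Submodule.sum_mem _ (fun j _ => hf j), ?_⟩
  have hcov : (univ.filter (fun y => ¬ ((∑ j, f j) y ≠ 0 ↔ y ∈ M))) ⊆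
      univ.biUnion (fun j : Fin R => univ.filter (fun y => ¬ (f j y ≠ 0 ↔ y ∈ F j))) := by
    intro y hy
    rw [mem_filter] at hy
    by_contra hcon
    apply hy.2
    have h1 : ∀ j, (f j y ≠ 0 ↔ y ∈ F j) := by
      intro j
      by_contra h2
      exact hcon (mem_biUnion.2 ⟨j, mem_univ _, mem_filter.2 ⟨mem_univ _, h2⟩⟩)
    have h2 : ∀ j, f j y = if y ∈ F j then 1 else 0 := by
      intro j
      split_ifs with h3
      · have h4 := (h1 j).2 h3
        rcases zmod2_cases (f j y) with h5 | h5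
        · exact absurd h5 h4
        · exact h5
      · by_contra h4
        exact h3 ((h1 j).1 h4)
    have h3 : (∑ j, f j) y = (({j | y ∈ F j}.ncard : ℕ) : ZMod 2) := by
      rw [Finset.sum_apply, sum_congr rfl (fun j _ => h2 j), sum_boole,
        Set.ncard_eq_toFinset_card']
      congr 2
      ext j
      simp
    rw [h3, hM y, ← ZMod.natCast_ne_zero_iff_odd]
  have h1 := (card_le_card hcov).trans card_biUnion_le
  calc ((univ.filter (fun y => ¬ ((∑ j, f j) y ≠ 0 ↔ y ∈ M))).card : ℝ)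
      ≤ ∑ j : Fin R, ((univ.filter (fun y => ¬ (f j y ≠ 0 ↔ y ∈ F j))).card : ℝ) := by
        exact_mod_cast h1
    _ ≤ ∑ _j : Fin R, 2 ^ n * Real.exp (-(2 * η ^ 2 * k)) := sum_le_sum (fun j _ => hc j)
    _ = _ := by rw [sum_const, card_univ, Fintype.card_fin, nsmul_eq_mul]

end Pool.Agent.E8helper55.DB
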